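import Mathlib

namespace Pool.Agent.J4.H88.RSA

open Finset PowerSeries Filter Topology

/-! ### power series with super-geometrically decaying coefficients -/

/-- The coefficients decay faster than every geometric sequence. -/
def Dec (f : PowerSeries ℝ) : Prop :=
  ∀ δ : ℝ, 0 < δ → ∃ C : ℝ, 0 ≤ C ∧ ∀ n, |coeff n f| ≤ C * δ ^ n

lemma dec_of_finite {f : PowerSeries ℝ} (N : ℕ) (h : ∀ n, N ≤ n → coeff n f = 0) : Dec f := by
  intro δ hδ
  refine ⟨∑ n ∈ range N, |coeff n f| * (δ ^ n)⁻¹, ?_, ?_⟩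
  · apply Finset.sum_nonneg
    intro i _
    positivity
  · intro n
    rcases lt_or_ge n N with hn | hn
    · have h1 : |coeff n f| * (δ ^ n)⁻¹ ≤ ∑ n ∈ range N, |coeff n f| * (δ ^ n)⁻¹ := by
        apply Finset.single_le_sum (f := fun n => |coeff n f| * (δ ^ n)⁻¹)
        · intro i _
          positivity
        · simpa using hn
      calc |coeff n f| = |coeff n f| * (δ ^ n)⁻¹ * δ ^ n := by
            field_simp
        _ ≤ _ := by gcongr
    · rw [h n hn, abs_zero]
      apply mul_nonneg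
      · apply Finset.sum_nonneg
        intro i _
        positivity
      · positivity

lemma dec_C (a : ℝ) : Dec (C a) := by
  apply dec_of_finite 1
  intro n hn
  rw [coeff_C, if_neg (by omega)]

lemma dec_X : Dec (X : PowerSeries ℝ) := by
  apply dec_of_finite 2
  intro n hn
  rw [coeff_X, if_neg (by omega)]

lemma dec_one : Dec (1 : PowerSeries ℝ) := by
  have := dec_C 1
  simpa using this

lemma Dec.add {f g : PowerSeries ℝ} (hf : Dec f) (hg : Dec g) : Dec (f + g) := by
  intro δ hδ
  obtain ⟨A, hA0, hA⟩ := hf δ hδ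
  obtain ⟨B, hB0, hB⟩ := hg δ hδ
  refine ⟨A + B, by positivity, fun n => ?_⟩
  rw [map_add, add_mul]
  exact (abs_add_le _ _).trans (add_le_add (hA n) (hB n))

lemma Dec.mul {f g : PowerSeries ℝ} (hf : Dec f) (hg : Dec g) : Dec (f * g) := by
  intro δ hδ
  obtain ⟨A, hA0, hA⟩ := hf (δ / 2) (by positivity)
  obtain ⟨B, hB0, hB⟩ := hg (δ / 2) (by positivity)
  refine ⟨A * B, by positivity, fun n => ?_⟩
  rw [coeff_mul]
  calc |∑ p ∈ antidiagonal n, coeff p.1 f * coeff p.2 g|
      ≤ ∑ p ∈ antidiagonal n, |coeff p.1 f * coeff p.2 g| := Finset.abs_sum_le_sum_abs _ _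
    _ ≤ ∑ p ∈ antidiagonal n, A * B * (δ / 2) ^ n := by
        apply Finset.sum_le_sum
        intro p hp
        rw [abs_mul]
        have hp' : p.1 + p.2 = n := by simpa using hp
        calc |coeff p.1 f| * |coeff p.2 g|
            ≤ (A * (δ / 2) ^ p.1) * (B * (δ / 2) ^ p.2) := by
              gcongr
              · exact hA _
              · exact hB _
          _ = A * B * (δ / 2) ^ n := by
              rw [← hp', pow_add]; ring
    _ = (n + 1) * (A * B * (δ / 2) ^ n) := by
        rw [Finset.sum_const, Finset.Nat.card_antidiagonal, nsmul_eq_mul]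
        push_cast
        ring
    _ ≤ A * B * δ ^ n := by
        have h1 : ((n : ℝ) + 1) ≤ 2 ^ n := by
          have := Nat.lt_two_pow_self (n := n)
          exact_mod_cast this
        have h2 : (δ / 2) ^ n * 2 ^ n = δ ^ n := by
          rw [← mul_pow]; congr 1; ring
        calc ((n : ℝ) + 1) * (A * B * (δ / 2) ^ n) ≤ 2 ^ n * (A * B * (δ / 2) ^ n) := by
              gcongr
          _ = A * B * ((δ / 2) ^ n * 2 ^ n) := by ring
          _ = A * B * δ ^ n := by rw [h2]

lemma Dec.neg {f : PowerSeries ℝ} (hf : Dec f) : Dec (-f) := by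
  intro δ hδ
  obtain ⟨A, hA0, hA⟩ := hf δ hδ
  refine ⟨A, hA0, fun n => ?_⟩
  rw [map_neg, abs_neg]
  exact hA n

lemma Dec.sub {f g : PowerSeries ℝ} (hf : Dec f) (hg : Dec g) : Dec (f - g) := by
  rw [sub_eq_add_neg]
  exact hf.add hg.neg

lemma Dec.pow {f : PowerSeries ℝ} (hf : Dec f) (n : ℕ) : Dec (f ^ n) := by
  induction n with
  | zero => simpa using dec_one
  | succ n ih => rw [pow_succ]; exact ih.mul hf

lemma dec_sum {ι : Type*} (I : Finset ι) (f : ι → PowerSeries ℝ) (h : ∀ i ∈ I, Dec (f i)) :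
    Dec (∑ i ∈ I, f i) := by
  classical
  induction I using Finset.induction_on with
  | empty => simpa using dec_C 0
  | insert i I hi ih =>
    rw [Finset.sum_insert hi]
    exact (h i (by simp)).add (ih fun j hj => h j (by simp [hj]))

lemma Dec.deriv {f : PowerSeries ℝ} (hf : Dec f) : Dec (derivative ℝ f) := by
  intro δ hδ
  obtain ⟨A, hA0, hA⟩ := hf (δ / 2) (by positivity)
  refine ⟨A * (δ / 2), by positivity, fun n => ?_⟩
  rw [coeff_derivative, abs_mul]
  have h1 : ((n : ℝ) + 1) ≤ 2 ^ n := by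
    have := Nat.lt_two_pow_self (n := n)
    exact_mod_cast this
  have h2 : (δ / 2) ^ n * 2 ^ n = δ ^ n := by
    rw [← mul_pow]; congr 1; ring
  have h3 : |(n : ℝ) + 1| = n + 1 := abs_of_nonneg (by positivity)
  rw [h3]
  calc |coeff (n + 1) f| * ((n : ℝ) + 1) ≤ (A * (δ / 2) ^ (n + 1)) * 2 ^ n := by
        gcongr
        exact hA _
    _ = A * (δ / 2) * ((δ / 2) ^ n * 2 ^ n) := by ring
    _ = _ := by rw [h2]

/-- evaluation -/
noncomputable def ev (f : PowerSeries ℝ) (t : ℝ) : ℝ := ∑' n, coeff n f * t ^ n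

lemma Dec.summable_abs {f : PowerSeries ℝ} (hf : Dec f) (t : ℝ) :
    Summable fun n => |coeff n f * t ^ n| := by
  obtain ⟨A, hA0, hA⟩ := hf (1 / (2 * (|t| + 1))) (by positivity)
  have hg : Summable fun n : ℕ => A * (1 / 2 : ℝ) ^ n :=
    (summable_geometric_of_lt_one (by norm_num) (by norm_num)).mul_left A
  refine hg.of_nonneg_of_le (fun n => abs_nonneg _) fun n => ?_
  rw [abs_mul, abs_pow]
  calc |coeff n f| * |t| ^ n ≤ (A * (1 / (2 * (|t| + 1))) ^ n) * |t| ^ n := by
        gcongr
        exact hA n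
    _ = A * ((1 / (2 * (|t| + 1))) * |t|) ^ n := by rw [mul_pow]; ring
    _ ≤ A * (1 / 2 : ℝ) ^ n := by
        gcongr
        rw [div_mul_eq_mul_div, div_le_div_iff₀ (by positivity) (by norm_num)]
        linarith

lemma Dec.summable {f : PowerSeries ℝ} (hf : Dec f) (t : ℝ) :
    Summable fun n => coeff n f * t ^ n := (hf.summable_abs t).of_abs

lemma ev_add {f g : PowerSeries ℝ} (hf : Dec f) (hg : Dec g) (t : ℝ) :
    ev (f + g) t = ev f t + ev g t := by
  unfold ev
  rw [← (hf.summable t).tsum_add (hg.summable t)]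
  congr 1
  funext n
  rw [map_add, add_mul]

lemma ev_neg (f : PowerSeries ℝ) (t : ℝ) : ev (-f) t = - ev f t := by
  unfold ev
  rw [← tsum_neg]
  congr 1
  funext n
  rw [map_neg, neg_mul]

lemma ev_sub {f g : PowerSeries ℝ} (hf : Dec f) (hg : Dec g) (t : ℝ) :
    ev (f - g) t = ev f t - ev g t := by
  rw [sub_eq_add_neg, ev_add hf hg.neg, ev_neg, sub_eq_add_neg]

lemma ev_mul {f g : PowerSeries ℝ} (hf : Dec f) (hg : Dec g) (t : ℝ) :
    ev (f * g) t = ev f t * ev g t := by
  unfold ev
  have h1 : Summable fun n => ‖coeff n f * t ^ n‖ := hf.summable_abs t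
  have h2 : Summable fun n => ‖coeff n g * t ^ n‖ := hg.summable_abs t
  rw [tsum_mul_tsum_eq_tsum_sum_antidiagonal_of_summable_norm h1 h2]
  congr 1
  funext n
  rw [coeff_mul, Finset.sum_mul]
  apply Finset.sum_congr rfl
  intro p hp
  have hp' : p.1 + p.2 = n := by simpa using hp
  rw [← hp', pow_add]
  ring

lemma ev_C (a t : ℝ) : ev (C a) t = a := by
  unfold ev
  rw [tsum_eq_single 0]
  · simp
  · intro n hn
    rw [coeff_C, if_neg hn, zero_mul]

lemma ev_one (t : ℝ) : ev 1 t = 1 := by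
  have := ev_C 1 t
  simpa using this

lemma ev_X (t : ℝ) : ev X t = t := by
  unfold ev
  rw [tsum_eq_single 1]
  · simp
  · intro n hn
    rw [coeff_X, if_neg hn, zero_mul]

lemma ev_pow {f : PowerSeries ℝ} (hf : Dec f) (n : ℕ) (t : ℝ) : ev (f ^ n) t = ev f t ^ n := by
  induction n with
  | zero => simp [ev_one]
  | succ n ih => rw [pow_succ, ev_mul (hf.pow n) hf, ih, pow_succ]

lemma ev_sum {ι : Type*} (I : Finset ι) (f : ι → PowerSeries ℝ) (h : ∀ i ∈ I, Dec (f i)) (t : ℝ) :
    ev (∑ i ∈ I, f i) t = ∑ i ∈ I, ev (f i) t := by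
  classical
  induction I using Finset.induction_on with
  | empty =>
    have := ev_C 0 t
    simpa using this
  | insert i I hi ih =>
    rw [Finset.sum_insert hi, Finset.sum_insert hi,
      ev_add (h i (by simp)) (dec_sum I f fun j hj => h j (by simp [hj])),
      ih fun j hj => h j (by simp [hj])]

lemma ev_zero' (f : PowerSeries ℝ) : ev f 0 = constantCoeff f := by
  unfold ev
  rw [tsum_eq_single 0]
  · simp
  · intro n hn
    rw [zero_pow hn, mul_zero]

lemma ev_hasDerivAt {f : PowerSeries ℝ} (hf : Dec f) (t : ℝ) :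
    HasDerivAt (ev f) (ev (derivative ℝ f) t) t := by
  set ρ : ℝ := |t| + 1 with hρ
  have hρ0 : 0 < ρ := by positivity
  have hu : Summable fun n : ℕ => |coeff n f * ((n : ℝ) * ρ ^ (n - 1))| := by
    rw [← summable_nat_add_iff 1]
    have := hf.deriv.summable_abs ρ
    refine this.congr fun n => ?_
    rw [coeff_derivative]
    simp only [Nat.add_sub_cancel]
    push_cast
    ring_nf
  have key := hasDerivAt_tsum_of_isPreconnected (t := Set.Ioo (-ρ) ρ) (y₀ := t) (y := t) hu
    isOpen_Ioo isPreconnected_Ioo (g := fun n y => coeff n f * y ^ n)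
    (g' := fun n y => coeff n f * ((n : ℝ) * y ^ (n - 1))) ?_ ?_ ?_ (hf.summable t) ?_
  · have e : ev (derivative ℝ f) t = ∑' n, coeff n f * ((n : ℝ) * t ^ (n - 1)) := by
      unfold ev
      have hs : Summable fun n : ℕ => coeff n f * ((n : ℝ) * t ^ (n - 1)) := by
        rw [← summable_nat_add_iff 1]
        have := hf.deriv.summable t
        refine this.congr fun n => ?_
        rw [coeff_derivative]
        simp only [Nat.add_sub_cancel]
        push_cast
        ring_nf
      rw [hs.tsum_eq_zero_add]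
      simp only [Nat.cast_zero, zero_mul, mul_zero, zero_add, Nat.add_sub_cancel]
      congr 1
      funext n
      rw [coeff_derivative]
      push_cast
      ring_nf
    rw [e]
    exact key
  · intro n y _
    exact (hasDerivAt_pow n y).const_mul _
  · intro n y hy
    rw [Real.norm_eq_abs, abs_mul, abs_mul, abs_mul, abs_mul, abs_pow, abs_pow]
    have hy' : |y| ≤ |ρ| := by
      rw [abs_of_pos hρ0, abs_le]
      exact ⟨hy.1.le, hy.2.le⟩
    gcongr
  · rw [Set.mem_Ioo, ← abs_lt]
    linarith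
  · rw [Set.mem_Ioo, ← abs_lt]
    linarith

lemma ev_continuous {f : PowerSeries ℝ} (hf : Dec f) : Continuous (ev f) :=
  continuous_iff_continuousAt.2 fun t => (ev_hasDerivAt hf t).continuousAt

/-! ### the linear differential equation -/

/-- `1 + X + ⋯ + X ^ (r-2)` -/
noncomputable def S (r : ℕ) : PowerSeries ℝ := ∑ j ∈ range (r - 1), X ^ j

lemma dec_S (r : ℕ) : Dec (S r) := dec_sum _ _ fun j _ => dec_X.pow j

lemma S_mul (r : ℕ) : S r * (1 - X) = 1 - X ^ (r - 1) := by
  have := geom_sum_mul (X : PowerSeries ℝ) (r - 1)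
  unfold S
  linear_combination -this

lemma ev_S (r : ℕ) (t : ℝ) : ev (S r) t = ∑ j ∈ range (r - 1), t ^ j := by
  unfold S
  rw [ev_sum _ _ fun j _ => dec_X.pow j]
  apply Finset.sum_congr rfl
  intro j _
  rw [ev_pow dec_X, ev_X]

/-- `2 ∑_{k=1}^{r-1} t^k / k` -/
noncomputable def P (r : ℕ) (t : ℝ) : ℝ := 2 * ∑ k ∈ Finset.Icc 1 (r - 1), t ^ k / k

lemma P_zero (r : ℕ) : P r 0 = 0 := by
  unfold P
  rw [Finset.sum_eq_zero, mul_zero]
  intro k hk
  have : k ≠ 0 := by
    simp only [Finset.mem_Icc] at hk; omega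
  rw [zero_pow this, zero_div]

lemma P_hasDerivAt (r : ℕ) (t : ℝ) : HasDerivAt (P r) (2 * ev (S r) t) t := by
  have h : ev (S r) t = ∑ k ∈ Finset.Icc 1 (r - 1), t ^ (k - 1) := by
    have e := Finset.sum_Ico_add' (fun k => t ^ (k - 1)) 0 (r - 1) 1
    have e' : Finset.Ico (0 + 1) (r - 1 + 1) = Finset.Icc 1 (r - 1) := by
      ext k
      simp only [Finset.mem_Ico, Finset.mem_Icc]
      omega
    rw [ev_S, Finset.range_eq_Ico, ← e', ← e]
    simp
  rw [h]
  unfold P
  apply HasDerivAt.const_mul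
  apply HasDerivAt.fun_sum
  intro k hk
  simp only [Finset.mem_Icc] at hk
  have hk0 : (k : ℝ) ≠ 0 := by
    have : k ≠ 0 := by omega
    exact_mod_cast this
  have := (hasDerivAt_pow k t).div_const (k : ℝ)
  refine this.congr_deriv ?_
  field_simp

lemma P_continuous (r : ℕ) : Continuous (P r) :=
  continuous_iff_continuousAt.2 fun t => (P_hasDerivAt r t).continuousAt

/-- the recurrence for the coefficients forces super-geometric decay -/
lemma dec_of_ode {r : ℕ} {L h : PowerSeries ℝ} (hh : Dec h)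
    (hL : derivative ℝ L = -2 * S r * L + h) : Dec L := by
  -- it suffices to treat `δ ≤ 1`
  suffices H : ∀ δ : ℝ, 0 < δ → δ ≤ 1 → ∃ C : ℝ, 0 ≤ C ∧ ∀ n, |coeff n L| ≤ C * δ ^ n by
    intro δ hδ
    obtain ⟨A, hA0, hA⟩ := H (min δ 1) (by positivity) (min_le_right _ _)
    refine ⟨A, hA0, fun n => (hA n).trans ?_⟩
    gcongr
    exact min_le_left _ _
  intro δ hδ hδ1
  obtain ⟨C₀, hC₀, hC⟩ := hh δ hδ
  have hrec : ∀ k : ℕ, ((k : ℝ) + 1) * |coeff (k + 1) L|
      ≤ 2 * ∑ j ∈ range (r - 1), (if j ≤ k then |coeff (k - j) L| else 0) + |coeff k h| := by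
    intro k
    have h1 : coeff (k + 1) L * ((k : ℝ) + 1)
        = -2 * ∑ j ∈ range (r - 1), (if j ≤ k then coeff (k - j) L else 0) + coeff k h := by
      rw [← coeff_derivative, hL, map_add]
      congr 1
      have e1 : (-2 : PowerSeries ℝ) * S r * L = C (-2 : ℝ) * ∑ j ∈ range (r - 1), X ^ j * L := by
        rw [← Finset.sum_mul]
        simp only [map_neg, map_ofNat]
        unfold S
        ring
      rw [e1, coeff_C_mul, map_sum]
      congr 1
      apply Finset.sum_congr rfl
      intro j _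
      rw [coeff_X_pow_mul']
    have h2 : ((k : ℝ) + 1) * |coeff (k + 1) L| = |coeff (k + 1) L * ((k : ℝ) + 1)| := by
      rw [abs_mul, abs_of_nonneg (by positivity : (0 : ℝ) ≤ (k : ℝ) + 1), mul_comm]
    rw [h2, h1]
    refine (abs_add_le _ _).trans ?_
    gcongr
    rw [abs_mul, abs_neg, abs_two]
    gcongr
    refine (Finset.abs_sum_le_sum_abs _ _).trans ?_
    apply Finset.sum_le_sum
    intro j _
    split_ifs <;> simp
  set A : ℝ := (2 * r * (δ ^ r)⁻¹ + 1) / δ with hA
  obtain ⟨N, hN⟩ := exists_nat_ge A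
  set Cs : ℝ := C₀ + ∑ n ∈ range (N + 1), |coeff n L| * (δ ^ n)⁻¹ with hCs
  have hsum0 : 0 ≤ ∑ n ∈ range (N + 1), |coeff n L| * (δ ^ n)⁻¹ := by
    apply Finset.sum_nonneg
    intro i _
    positivity
  have hCs0 : 0 ≤ Cs := by positivity
  refine ⟨Cs, hCs0, fun n => ?_⟩
  induction n using Nat.strong_induction_on with
  | _ n ih =>
    rcases Nat.lt_or_ge N n with hn | hn
    · obtain ⟨k, rfl⟩ : ∃ k, n = k + 1 := ⟨n - 1, by omega⟩
      have hk : N ≤ k := by omega
      have hk' : A ≤ (k : ℝ) + 1 := by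
        have : (N : ℝ) ≤ k := by exact_mod_cast hk
        linarith
      have hb : ∀ j ∈ range (r - 1), (if j ≤ k then |coeff (k - j) L| else 0)
          ≤ Cs * δ ^ k * (δ ^ r)⁻¹ := by
        intro j hj
        split_ifs with hjk
        · refine (ih (k - j) (by omega)).trans ?_
          rw [mul_assoc]
          gcongr
          have hj' : j < r - 1 := by simpa using hj
          rw [← div_eq_mul_inv, le_div_iff₀ (by positivity), ← pow_add]
          apply pow_le_pow_of_le_one hδ.le hδ1
          omega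
        · positivity
      have h1 := hrec k
      have h2 : 2 * ∑ j ∈ range (r - 1), (if j ≤ k then |coeff (k - j) L| else 0) + |coeff k h|
          ≤ 2 * (r * (Cs * δ ^ k * (δ ^ r)⁻¹)) + Cs * δ ^ k := by
        gcongr
        · refine (Finset.sum_le_card_nsmul _ _ _ hb).trans ?_
          rw [Finset.card_range, nsmul_eq_mul]
          gcongr
          omega
        · refine (hC k).trans ?_
          gcongr
          linarith
      have h3 : 2 * (r * (Cs * δ ^ k * (δ ^ r)⁻¹)) + Cs * δ ^ k = A * (Cs * δ ^ (k + 1)) := by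
        rw [hA]
        field_simp
        ring
      rw [h3] at h2
      have h4 : ((k : ℝ) + 1) * |coeff (k + 1) L| ≤ ((k : ℝ) + 1) * (Cs * δ ^ (k + 1)) :=
        h1.trans (h2.trans (by gcongr))
      exact le_of_mul_le_mul_left h4 (by positivity)
    · have h1 : |coeff n L| * (δ ^ n)⁻¹ ≤ ∑ n ∈ range (N + 1), |coeff n L| * (δ ^ n)⁻¹ := by
        apply Finset.single_le_sum (f := fun n => |coeff n L| * (δ ^ n)⁻¹)
        · intro i _
          positivity
        · simp only [Finset.mem_range]; omega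
      calc |coeff n L| = |coeff n L| * (δ ^ n)⁻¹ * δ ^ n := by
            field_simp
        _ ≤ _ := by
            gcongr
            linarith

/-- solution formula -/
lemma ev_of_ode {r : ℕ} {L h : PowerSeries ℝ} (hh : Dec h)
    (hL : derivative ℝ L = -2 * S r * L + h) (h0 : constantCoeff L = 0) (t : ℝ) :
    ev L t = ∫ s in (0 : ℝ)..t, Real.exp (P r s - P r t) * ev h s := by
  have hd := dec_of_ode hh hL
  have hder : ∀ s : ℝ, HasDerivAt (fun s => Real.exp (P r s) * ev L s)
      (Real.exp (P r s) * ev h s) s := by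
    intro s
    have h1 := (P_hasDerivAt r s).exp.mul (ev_hasDerivAt hd s)
    refine h1.congr_deriv ?_
    have e : (-2 : PowerSeries ℝ) * S r * L = C (-2 : ℝ) * S r * L := by
      rw [map_neg, map_ofNat]
    rw [hL, e, ev_add (((dec_C (-2)).mul (dec_S r)).mul hd) hh,
      ev_mul ((dec_C (-2)).mul (dec_S r)) hd, ev_mul (dec_C (-2)) (dec_S r), ev_C]
    ring
  have hcont : Continuous fun s => Real.exp (P r s) * ev h s :=
    (Real.continuous_exp.comp (P_continuous r)).mul (ev_continuous hh)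
  have hint := intervalIntegral.integral_eq_sub_of_hasDerivAt (a := 0) (b := t)
    (fun s _ => hder s) (hcont.intervalIntegrable _ _)
  rw [ev_zero', h0, mul_zero, sub_zero] at hint
  have : ∀ s, Real.exp (P r s - P r t) * ev h s
      = Real.exp (- P r t) * (Real.exp (P r s) * ev h s) := by
    intro s
    rw [sub_eq_add_neg, Real.exp_add]
    ring
  simp_rw [this]
  rw [intervalIntegral.integral_const_mul, hint, ← mul_assoc, ← Real.exp_add]
  simp

/-! ### the recurrences -/

lemma mk_one_mul : (mk fun _ => (1 : ℝ)) * (1 - X) = 1 := by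
  have := mk_one_mul_one_sub_eq_one ℝ
  exact this

lemma mk_succ_mul : (mk fun n => ((n : ℝ) + 1)) * (1 - X) ^ 2 = 1 := by
  have h : (mk fun n => ((n : ℝ) + 1)) = (mk fun _ => (1 : ℝ)) * (mk fun _ => (1 : ℝ)) := by
    ext n
    rw [coeff_mul]
    simp
  rw [h]
  have := mk_one_mul
  linear_combination ((mk fun _ => (1 : ℝ)) * (1 - X) + 1) * this

section rec

variable {r : ℕ} (w b : ℕ → ℝ)

/-- the shifted generating function -/
noncomputable def gW (r : ℕ) (w : ℕ → ℝ) : PowerSeries ℝ :=
  mk fun k => if k = 0 then 0 else w (k + r - 1)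

/-- the low part -/
noncomputable def gLow (r : ℕ) (w : ℕ → ℝ) : PowerSeries ℝ :=
  ∑ n ∈ range r, C (w n) * X ^ n

lemma mk_eq (hr : 0 < r) : mk w = gLow r w + X ^ (r - 1) * gW r w := by
  ext n
  rw [map_add, coeff_mk, gLow, map_sum, coeff_X_pow_mul', gW]
  simp only [coeff_C_mul, coeff_X_pow, coeff_mk]
  rcases Nat.lt_or_ge n r with h | h
  · rw [Finset.sum_eq_single n]
    · simp only [if_true, mul_one]
      split_ifs with h1 h2
      · simp
      · omega
      · simp
    · intro j _ hj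
      rw [if_neg (Ne.symm hj), mul_zero]
    · intro hn
      exact absurd (Finset.mem_range.2 h) hn
  · rw [Finset.sum_eq_zero]
    · rw [if_pos (by omega), if_neg (by omega), zero_add]
      congr 1
      omega
    · intro j hj
      have hj' : j < r := by simpa using hj
      rw [if_neg (by omega), mul_zero]

lemma ode_of_rec (hr : 0 < r)
    (h : ∀ k : ℕ, ((k : ℝ) + 1) * w (k + r) = 2 * ∑ i ∈ range (k + 1), w i + b k) :
    derivative ℝ ((1 - X) ^ 2 * gW r w)
      = -2 * S r * ((1 - X) ^ 2 * gW r w) + (2 * (1 - X) * gLow r w + (1 - X) ^ 2 * PowerSeries.mk b) := by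
  have h1 : derivative ℝ (gW r w) = 2 * (PowerSeries.mk w * PowerSeries.mk fun _ => (1 : ℝ)) + PowerSeries.mk b := by
    ext k
    rw [coeff_derivative, map_add, gW, coeff_mk, if_neg (by omega), coeff_mk]
    have e1 : (2 : PowerSeries ℝ) * (PowerSeries.mk w * PowerSeries.mk fun _ => (1 : ℝ))
        = C (2 : ℝ) * (PowerSeries.mk w * PowerSeries.mk fun _ => (1 : ℝ)) := by
      rw [map_ofNat]
    rw [e1, coeff_C_mul, coeff_mul]
    have e2 : ∑ p ∈ antidiagonal k, coeff p.1 (mk w) * coeff p.2 (mk fun _ => (1 : ℝ))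
        = ∑ i ∈ range (k + 1), w i := by
      rw [Finset.Nat.sum_antidiagonal_eq_sum_range_succ_mk]
      simp
    rw [e2]
    have e3 : k + 1 + r - 1 = k + r := by omega
    rw [e3, ← h k]
    ring
  have h2 := mk_eq w hr
  have h3 := mk_one_mul
  have h4 := S_mul r
  have h5 : derivative ℝ ((1 - X : PowerSeries ℝ) ^ 2) = -2 * (1 - X) := by
    rw [Derivation.leibniz_pow]
    simp only [derivative_X, map_sub, Derivation.map_one_eq_zero, smul_eq_mul, nsmul_eq_mul]
    push_cast
    ring
  rw [Derivation.leibniz, h1, h5, h2]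
  simp only [smul_eq_mul]
  linear_combination (2 * (1 - X) * (gLow r w + X ^ (r - 1) * gW r w)) * h3
    + (- 2 * (1 - X) * gW r w) * (-h4)

end rec

end Pool.Agent.J4.H88.RSA
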