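import Pool.Agent.J4.H88.RSA.Defs
import Pool.Agent.J4.H88.RSA.Series

namespace Pool.Agent.J4.H88.RSA

open Finset PowerSeries Filter Topology

/-! ### asymptotics of the coefficients of `L / (1 - X) ^ 2` -/

lemma coeff_of_sq {L W : PowerSeries ℝ} (h : (1 - X) ^ 2 * W = L) (k : ℕ) :
    coeff k W = ∑ j ∈ range (k + 1), ((k : ℝ) + 1 - j) * coeff j L := by
  have hW : W = L * PowerSeries.mk fun n => ((n : ℝ) + 1) := by
    rw [← h]
    linear_combination (-W) * mk_succ_mul
  rw [hW, coeff_mul, Finset.Nat.sum_antidiagonal_eq_sum_range_succ_mk]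
  apply Finset.sum_congr rfl
  intro j hj
  have hj' : j ≤ k := by
    have := Finset.mem_range.1 hj
    omega
  simp only [coeff_mk]
  push_cast [hj']
  ring

lemma asym {L W : PowerSeries ℝ} (hL : Dec L) (h : (1 - X) ^ 2 * W = L) :
    Dec (PowerSeries.mk fun k => coeff k W
      - (((k : ℝ) + 1) * ev L 1 - ev (derivative ℝ L) 1)) := by
  have hA : Summable fun j => coeff j L := by
    have := hL.summable 1
    simpa using this
  have hB' : Summable fun j : ℕ => ((j : ℝ) + 1) * coeff (j + 1) L := by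
    have := hL.deriv.summable 1
    refine this.congr fun j => ?_
    rw [coeff_derivative]
    simp [mul_comm]
  have hB : Summable fun j : ℕ => (j : ℝ) * coeff j L := by
    rw [← summable_nat_add_iff 1]
    refine hB'.congr fun j => ?_
    push_cast
    ring
  have eA : ev L 1 = ∑' j, coeff j L := by
    unfold ev
    simp
  have eB : ev (derivative ℝ L) 1 = ∑' j : ℕ, (j : ℝ) * coeff j L := by
    unfold ev
    rw [hB.tsum_eq_zero_add]
    simp only [Nat.cast_zero, zero_mul, zero_add, one_pow, mul_one, coeff_derivative]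
    congr 1
    funext j
    push_cast
    ring
  have key : ∀ k : ℕ, coeff k W - (((k : ℝ) + 1) * ev L 1 - ev (derivative ℝ L) 1)
      = ∑' i : ℕ, (i : ℝ) * coeff (i + (k + 1)) L := by
    intro k
    have hs : Summable fun j : ℕ => ((k : ℝ) + 1 - j) * coeff j L := by
      refine ((hA.mul_left ((k : ℝ) + 1)).sub hB).congr fun j => ?_
      ring
    have e1 : ((k : ℝ) + 1) * ev L 1 - ev (derivative ℝ L) 1
        = ∑' j : ℕ, ((k : ℝ) + 1 - j) * coeff j L := by
      rw [eA, eB, ← tsum_mul_left, ← (hA.mul_left ((k : ℝ) + 1)).tsum_sub hB]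
      congr 1
      funext j
      ring
    rw [e1, ← hs.sum_add_tsum_nat_add (k + 1), coeff_of_sq h k]
    rw [sub_add_cancel_left, ← tsum_neg]
    congr 1
    funext i
    push_cast
    ring
  -- it suffices to treat `δ ≤ 1 / 4`
  suffices H : ∀ δ : ℝ, 0 < δ → δ ≤ 1 / 4 → ∃ C : ℝ, 0 ≤ C ∧ ∀ n,
      |coeff n (PowerSeries.mk fun k => coeff k W
      - (((k : ℝ) + 1) * ev L 1 - ev (derivative ℝ L) 1))| ≤ C * δ ^ n by
    intro δ hδ
    obtain ⟨A, hA0, hA⟩ := H (min δ (1 / 4)) (by positivity) (min_le_right _ _)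
    refine ⟨A, hA0, fun n => (hA n).trans ?_⟩
    gcongr
    exact min_le_left _ _
  intro δ hδ hδ1
  obtain ⟨C, hC0, hC⟩ := hL δ hδ
  have hg : Summable fun n : ℕ => C * δ * (1 / 2 : ℝ) ^ n :=
    (summable_geometric_of_lt_one (by norm_num) (by norm_num)).mul_left _
  refine ⟨∑' n : ℕ, C * δ * (1 / 2 : ℝ) ^ n, tsum_nonneg fun n => by positivity, fun k => ?_⟩
  rw [coeff_mk, key k]
  have hbd : ∀ i : ℕ, ‖(i : ℝ) * coeff (i + (k + 1)) L‖ ≤ (C * δ * (1 / 2 : ℝ) ^ i) * δ ^ k := by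
    intro i
    rw [Real.norm_eq_abs, abs_mul, Nat.abs_cast]
    have h1 : (i : ℝ) ≤ 2 ^ i := by
      have := (Nat.lt_two_pow_self (n := i)).le
      exact_mod_cast this
    calc (i : ℝ) * |coeff (i + (k + 1)) L| ≤ 2 ^ i * (C * δ ^ (i + (k + 1))) := by
          gcongr
          exact hC _
      _ = (C * δ * (2 * δ) ^ i) * δ ^ k := by
          rw [mul_pow]; ring
      _ ≤ _ := by
          gcongr
          linarith
  have hg' := hg.mul_right (δ ^ k)
  have h2 := tsum_of_norm_bounded hg'.hasSum hbd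
  rw [tsum_mul_right] at h2
  exact h2

/-! ### algebraic identities -/

lemma one_sub_mul_mk (f : ℕ → ℝ) :
    (1 - X) * PowerSeries.mk f = C (f 0) + X * PowerSeries.mk fun n => f (n + 1) - f n := by
  ext n
  rw [sub_mul, one_mul, map_sub, map_add]
  rcases n with _ | n
  · simp
  · rw [coeff_succ_X_mul, coeff_succ_X_mul, coeff_C, if_neg (by omega)]
    simp

lemma mk_linear (a c : ℝ) :
    (1 - X) ^ 2 * PowerSeries.mk (fun n => a * ((n : ℝ) + 1) + c)
      = C a + C c * (1 - X) := by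
  have h : PowerSeries.mk (fun n => a * ((n : ℝ) + 1) + c)
      = C a * PowerSeries.mk (fun n => (n : ℝ) + 1) + C c * PowerSeries.mk fun _ => (1 : ℝ) := by
    ext n
    simp
  rw [h]
  linear_combination (C a) * mk_succ_mul + (C c) * (1 - X) * mk_one_mul

lemma mk_sq (a c : ℝ) :
    (1 - X) ^ 3 * PowerSeries.mk (fun n => (a * (n : ℝ) + c) ^ 2)
      = C c ^ 2 * (1 - X) ^ 2 + X * (2 * C a ^ 2 + (2 * C a * C c - C a ^ 2) * (1 - X)) := by
  have h1 := one_sub_mul_mk (fun n => (a * (n : ℝ) + c) ^ 2)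
  have h2 : (PowerSeries.mk fun n => (a * ((n + 1 : ℕ) : ℝ) + c) ^ 2 - (a * (n : ℝ) + c) ^ 2)
      = PowerSeries.mk (fun n => (2 * a ^ 2) * ((n : ℝ) + 1) + (2 * a * c - a ^ 2)) := by
    ext n
    simp only [coeff_mk]
    push_cast
    ring
  rw [h2] at h1
  have h3 := mk_linear (2 * a ^ 2) (2 * a * c - a ^ 2)
  have e1 : C (2 * a ^ 2) = 2 * C a ^ 2 := by
    rw [map_mul, map_pow, map_ofNat]
  have e2 : C (2 * a * c - a ^ 2) = 2 * C a * C c - C a ^ 2 := by
    rw [map_sub, map_mul, map_mul, map_pow, map_ofNat]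
  rw [e1, e2] at h3
  have e3 : C ((fun n : ℕ => (a * (n : ℝ) + c) ^ 2) 0) = C c ^ 2 := by
    simp
  rw [e3] at h1
  linear_combination (1 - X) ^ 2 * h1 + X * h3

lemma mk_eq_low (r : ℕ) (w : ℕ → ℝ) :
    PowerSeries.mk w = gLow r w + X ^ r * PowerSeries.mk fun n => w (n + r) := by
  ext n
  rw [map_add, coeff_mk, gLow, map_sum, coeff_X_pow_mul']
  simp only [coeff_C_mul, coeff_X_pow, coeff_mk]
  rcases Nat.lt_or_ge n r with h | h
  · rw [Finset.sum_eq_single n]
    · simp only [if_true, mul_one]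
      rw [if_neg (by omega), add_zero]
    · intro j _ hj
      rw [if_neg (Ne.symm hj), mul_zero]
    · intro hn
      exact absurd (Finset.mem_range.2 h) hn
  · rw [Finset.sum_eq_zero]
    · rw [if_pos h, zero_add]
      congr 1
      omega
    · intro j hj
      have hj' : j < r := by simpa using hj
      rw [if_neg (by omega), mul_zero]

lemma gLow_sq (r : ℕ) (a c : ℝ) :
    (1 - X) ^ 3 * gLow r (fun n => (a * (n : ℝ) + c) ^ 2)
      = (C c ^ 2 * (1 - X) ^ 2 + X * (2 * C a ^ 2 + (2 * C a * C c - C a ^ 2) * (1 - X)))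
        - X ^ r * ((C a * C (r : ℝ) + C c) ^ 2 * (1 - X) ^ 2
          + X * (2 * C a ^ 2 + (2 * C a * (C a * C (r : ℝ) + C c) - C a ^ 2) * (1 - X))) := by
  have h1 := mk_sq a c
  have h2 := mk_sq a (a * r + c)
  have h3 := mk_eq_low r (fun n => (a * (n : ℝ) + c) ^ 2)
  have h4 : (PowerSeries.mk fun n => (a * ((n + r : ℕ) : ℝ) + c) ^ 2)
      = PowerSeries.mk (fun n => (a * (n : ℝ) + (a * r + c)) ^ 2) := by
    ext n
    simp only [coeff_mk]
    push_cast
    ring
  rw [h4] at h3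
  have e1 : C (a * (r : ℝ) + c) = C a * C (r : ℝ) + C c := by
    rw [map_add, map_mul]
  rw [e1] at h2
  linear_combination h1 - (1 - X) ^ 3 * h3 - X ^ r * h2

/-- `∑_{j=0}^{r-2} (r-1-j) X^j` -/
noncomputable def Sg (r : ℕ) : PowerSeries ℝ :=
  ∑ j ∈ range (r - 1), C ((r : ℝ) - 1 - j) * X ^ j

lemma dec_Sg (r : ℕ) : Dec (Sg r) := dec_sum _ _ fun j _ => (dec_C _).mul (dec_X.pow j)

lemma ev_Sg (r : ℕ) (t : ℝ) : ev (Sg r) t = ∑ j ∈ range (r - 1), ((r : ℝ) - 1 - j) * t ^ j := by
  unfold Sg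
  rw [ev_sum _ _ fun j _ => (dec_C _).mul (dec_X.pow j)]
  apply Finset.sum_congr rfl
  intro j _
  rw [ev_mul (dec_C _) (dec_X.pow j), ev_C, ev_pow dec_X, ev_X]

lemma Sg_mul (r : ℕ) (hr : 1 ≤ r) : (1 - X) * Sg r = C (r : ℝ) - 1 - X * S r := by
  induction r, hr using Nat.le_induction with
  | base => simp [Sg, S]
  | succ r hr ih =>
    have h1 : Sg (r + 1) = Sg r + S (r + 1) := by
      unfold Sg S
      obtain ⟨q, rfl⟩ : ∃ q, r = q + 1 := ⟨r - 1, by omega⟩
      simp only [Nat.add_sub_cancel]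
      rw [Finset.sum_range_succ, Finset.sum_range_succ (fun j => (X : PowerSeries ℝ) ^ j),
        ← add_assoc, ← Finset.sum_add_distrib]
      congr 1
      · apply Finset.sum_congr rfl
        intro j _
        push_cast
        simp only [map_sub, map_add, map_one, map_natCast]
        ring
      · push_cast
        simp
    have h2 : S (r + 1) = S r + X ^ (r - 1) := by
      unfold S
      obtain ⟨q, rfl⟩ : ∃ q, r = q + 1 := ⟨r - 1, by omega⟩
      simp only [Nat.add_sub_cancel]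
      rw [Finset.sum_range_succ]
    have h3 := S_mul (r + 1)
    have h4 : (X : PowerSeries ℝ) ^ (r + 1 - 1) = X * X ^ (r - 1) := by
      rw [← pow_succ']
      congr 1
      omega
    rw [h4] at h3
    rw [h1]
    push_cast
    rw [map_add, map_one]
    linear_combination ih + h3 + X * h2

end Pool.Agent.J4.H88.RSA
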