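import Mathlib

/-!
# Random sequential adsorption of `r`-mers on `n` sites: the process

The sites are `0, …, n-1`.  A block of `r` consecutive sites is given by its first site `s`,
it consists of the sites `s, …, s+r-1`, and it has to satisfy `s + r ≤ n`.
-/

namespace Pool.Agent.J4.H88.RSA

open Finset MeasureTheory ProbabilityTheory

/-- The blocks (given by their first site) of `r` consecutive sites of `{0, …, n-1}` all of whose
sites are uncovered when the blocks in `S` are occupied. -/
def free (r n : ℕ) (S : Finset ℕ) : Finset ℕ :=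
  (range n).filter fun s => s + r ≤ n ∧ ∀ t ∈ S, Disjoint (Ico s (s + r)) (Ico t (t + r))

/-- One placement: a block which is still entirely uncovered is chosen uniformly at random and
becomes occupied; nothing happens if there is no such block. -/
noncomputable def step (r n : ℕ) (S : Finset ℕ) : PMF (Finset ℕ) :=
  if h : (free r n S).Nonempty then
    (PMF.uniformOfFinset (free r n S) h).map fun s => insert s S
  else PMF.pure S

/-- The law of the set of occupied blocks after `k` placements, starting from the empty lattice. -/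
noncomputable def config (r n : ℕ) : ℕ → PMF (Finset ℕ)
  | 0 => PMF.pure ∅
  | k + 1 => (config r n k).bind (step r n)

/-- The law of the number `C_n` of `r`-mers in the jammed configuration (which is reached after
at most `n` placements). -/
noncomputable def count (r n : ℕ) : PMF ℕ := (config r n n).map Finset.card

/-- `B(t) = exp(-2 ∑_{k=1}^{r-1} (1 - t^k)/k)`, so that `μ(r) = 1 - r ∫_0^1 B(t) dt`. -/
noncomputable def B (r : ℕ) (t : ℝ) : ℝ :=
  Real.exp (-2 * ∑ k ∈ Icc 1 (r - 1), (1 - t ^ k) / k)

/-- `b(t) = ∫_0^t B(s) ds`, so that `b(1) = (1 - μ(r)) / r`. -/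
noncomputable def b (r : ℕ) (t : ℝ) : ℝ := ∫ s in (0 : ℝ)..t, B r s

/-- The limiting variance per site,
`v(r) = b(1)^2 - b(1) + 4 ∫_0^1 ( t^{r-1} (∑_{j=0}^{r-2} t^j) b(t)
  - t^{2r-3} (∑_{j=0}^{r-2} (r-1-j) t^j) b(t)^2 / B(t) ) dt`. -/
noncomputable def v (r : ℕ) : ℝ :=
  b r 1 ^ 2 - b r 1 + 4 * ∫ t in (0 : ℝ)..1,
    (t ^ (r - 1) * (∑ j ∈ range (r - 1), t ^ j) * b r t
      - t ^ (2 * r - 3) * (∑ j ∈ range (r - 1), ((r : ℝ) - 1 - j) * t ^ j) * (b r t ^ 2 / B r t))

end Pool.Agent.J4.H88.RSA
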