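import Pool.Agent.J4.H88.RSA.Asym

namespace Pool.Agent.J4.H88.RSA

open Finset PowerSeries Filter Topology

lemma exp_P (r : ℕ) (s : ℝ) : Real.exp (P r s - P r 1) = B r s := by
  unfold B P
  congr 1
  rw [← mul_sub, ← Finset.sum_sub_distrib, neg_mul, ← mul_neg, ← Finset.sum_neg_distrib]
  congr 1
  apply Finset.sum_congr rfl
  intro k _
  rw [one_pow]
  ring

lemma exp_P' (r : ℕ) (s t : ℝ) : Real.exp (P r s - P r t) = B r s / B r t := by
  rw [← exp_P, ← exp_P, ← Real.exp_sub]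
  congr 1
  ring

lemma B_pos (r : ℕ) (t : ℝ) : 0 < B r t := Real.exp_pos _

section mean

variable {r : ℕ} (m : ℕ → ℝ)

/-- the data satisfied by the means -/
structure MeanRec (r : ℕ) (m : ℕ → ℝ) : Prop where
  low : ∀ n, n < r → m n = 0
  step : ∀ k : ℕ, ((k : ℝ) + 1) * m (k + r) = 2 * ∑ i ∈ range (k + 1), m i + ((k : ℝ) + 1)

/-- `F = (1 - X)^2 * ∑ m_{k+r-1} X^k` -/
noncomputable def gF (r : ℕ) (m : ℕ → ℝ) : PowerSeries ℝ := (1 - X) ^ 2 * gW r m

variable {m}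

lemma gLow_zero (h : MeanRec r m) : gLow r m = 0 := by
  unfold gLow
  apply Finset.sum_eq_zero
  intro n hn
  rw [h.low n (by simpa using hn)]
  simp

lemma gF_ode (hr : 0 < r) (h : MeanRec r m) :
    derivative ℝ (gF r m) = -2 * S r * gF r m + 1 := by
  have h1 := ode_of_rec m (fun k => (k : ℝ) + 1) hr h.step
  rw [gLow_zero h, mul_zero, zero_add, mul_comm ((1 - X : PowerSeries ℝ) ^ 2)
    (PowerSeries.mk fun k => (k : ℝ) + 1), mk_succ_mul] at h1
  exact h1

lemma gF_zero : constantCoeff (gF r m) = 0 := by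
  simp [gF, gW]

lemma dec_gF (hr : 0 < r) (h : MeanRec r m) : Dec (gF r m) :=
  dec_of_ode dec_one (gF_ode hr h)

lemma ev_gF (hr : 0 < r) (h : MeanRec r m) (t : ℝ) : ev (gF r m) t = b r t / B r t := by
  rw [ev_of_ode dec_one (gF_ode hr h) gF_zero]
  simp_rw [ev_one, mul_one, exp_P']
  rw [intervalIntegral.integral_div]
  rfl

lemma B_one (r : ℕ) : B r 1 = 1 := by simp [B]

lemma ev_gF_one (hr : 0 < r) (h : MeanRec r m) : ev (gF r m) 1 = b r 1 := by
  rw [ev_gF hr h, B_one, div_one]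

lemma ev_S_one (hr : 0 < r) : ev (S r) 1 = (r : ℝ) - 1 := by
  rw [ev_S]
  simp
  rw [Nat.cast_sub (by omega)]
  simp

lemma ev_gF'_one (hr : 0 < r) (h : MeanRec r m) :
    ev (derivative ℝ (gF r m)) 1 = 1 - 2 * ((r : ℝ) - 1) * b r 1 := by
  have e : (-2 : PowerSeries ℝ) * S r * gF r m = C (-2 : ℝ) * S r * gF r m := by
    rw [map_neg, map_ofNat]
  rw [gF_ode hr h, e, ev_add (((dec_C (-2)).mul (dec_S r)).mul (dec_gF hr h)) dec_one,
      ev_mul ((dec_C (-2)).mul (dec_S r)) (dec_gF hr h), ev_mul (dec_C (-2)) (dec_S r), ev_C,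
      ev_S_one hr, ev_gF_one hr h, ev_one]
  ring

/-- the affine approximation of the mean -/
noncomputable def aff (r : ℕ) (n : ℕ) : ℝ := b r 1 * ((n : ℝ) + r) - 1

lemma dec_gLow (r : ℕ) (w : ℕ → ℝ) : Dec (gLow r w) :=
  dec_sum _ _ fun _ _ => (dec_C _).mul (dec_X.pow _)

lemma dec_e (hr : 0 < r) (h : MeanRec r m) : Dec (PowerSeries.mk fun n => m n - aff r n) := by
  rw [mk_eq _ hr]
  refine (dec_gLow _ _).add ((dec_X.pow _).mul ?_)
  have h1 := asym (dec_gF hr h) (W := gW r m) rfl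
  rw [ev_gF_one hr h, ev_gF'_one hr h] at h1
  have h2 : gW r (fun n => m n - aff r n)
      = (PowerSeries.mk fun k => coeff k (gW r m)
      - (((k : ℝ) + 1) * b r 1 - (1 - 2 * ((r : ℝ) - 1) * b r 1)))
        - C (- (b r 1 - (1 - 2 * ((r : ℝ) - 1) * b r 1))) := by
    ext k
    rcases k with _ | k
    · simp [gW]
    · rw [map_sub, coeff_mk, coeff_C, if_neg (by omega)]
      simp only [gW, coeff_mk, if_neg (Nat.succ_ne_zero k), aff, sub_zero]
      have : ((k + 1 + r - 1 : ℕ) : ℝ) = k + r := by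
        have : k + 1 + r - 1 = k + r := by omega
        rw [this]
        push_cast
        ring
      rw [this]
      push_cast
      ring
  rw [h2]
  exact h1.sub (dec_C _)

lemma sq_mul_e (hr : 0 < r) (h : MeanRec r m) :
    (1 - X) ^ 2 * (PowerSeries.mk fun n => m n - aff r n)
      = X ^ (r - 1) * gF r m
        - (C (b r 1) * X + (C (b r 1) * C (r : ℝ) - 1) * (1 - X)) := by
  have h1 : (PowerSeries.mk fun n => m n - aff r n)
      = PowerSeries.mk m - PowerSeries.mk fun n : ℕ => b r 1 * ((n : ℝ) + 1)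
        + (b r 1 * ((r : ℝ) - 1) - 1) := by
    ext n
    simp only [aff, map_sub, coeff_mk]
    ring
  have h2 := mk_linear (b r 1) (b r 1 * ((r : ℝ) - 1) - 1)
  have h3 := mk_eq m hr
  rw [gLow_zero h, zero_add] at h3
  rw [h1, mul_sub, h2, h3]
  simp only [map_sub, map_mul, map_one]
  unfold gF
  ring

end mean

section second

variable {r : ℕ} {m Q : ℕ → ℝ}

/-- the data satisfied by the centred second moments -/
structure SecRec (r : ℕ) (m Q : ℕ → ℝ) : Prop where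
  low : ∀ n, n < r → Q n = aff r n ^ 2
  step : ∀ k : ℕ, ((k : ℝ) + 1) * Q (k + r) = 2 * ∑ i ∈ range (k + 1), Q i
    + 2 * ∑ i ∈ range (k + 1), (m i - aff r i) * (m (k - i) - aff r (k - i))

/-- abbreviation -/
noncomputable def ge (r : ℕ) (m : ℕ → ℝ) : PowerSeries ℝ := PowerSeries.mk fun n => m n - aff r n

/-- the source term -/
noncomputable def gh (r : ℕ) (m Q : ℕ → ℝ) : PowerSeries ℝ :=
  2 * (1 - X) * gLow r Q + (1 - X) ^ 2 * (2 * ge r m ^ 2)

lemma ode_Q (hr : 0 < r) (hQ : SecRec r m Q) :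
    derivative ℝ ((1 - X) ^ 2 * gW r Q) = -2 * S r * ((1 - X) ^ 2 * gW r Q) + gh r m Q := by
  have h1 := ode_of_rec Q (fun k => 2 * ∑ i ∈ range (k + 1),
    (m i - aff r i) * (m (k - i) - aff r (k - i))) hr hQ.step
  have h2 : (PowerSeries.mk fun k => 2 * ∑ i ∈ range (k + 1),
    (m i - aff r i) * (m (k - i) - aff r (k - i))) = 2 * ge r m ^ 2 := by
    ext k
    have e : (2 : PowerSeries ℝ) * ge r m ^ 2 = C (2 : ℝ) * ge r m ^ 2 := by
      rw [map_ofNat]
    rw [e, coeff_C_mul, coeff_mk, sq, coeff_mul, Finset.Nat.sum_antidiagonal_eq_sum_range_succ_mk]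
    simp only [ge, coeff_mk]
  rw [h1, h2]
  rfl

lemma gLow_Q (hQ : SecRec r m Q) : gLow r Q = gLow r (fun n => (b r 1 * (n : ℝ)
    + (b r 1 * r - 1)) ^ 2) := by
  unfold gLow
  apply Finset.sum_congr rfl
  intro n hn
  rw [hQ.low n (by simpa using hn), aff]
  congr 2
  ring

lemma dec_gh (hr : 0 < r) (h : MeanRec r m) : Dec (gh r m Q) := by
  have h2 : Dec (2 : PowerSeries ℝ) := by
    have := dec_C 2
    rwa [map_ofNat] at this
  have h1 : Dec (1 - X : PowerSeries ℝ) := dec_one.sub dec_X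
  exact ((h2.mul h1).mul (dec_gLow _ _)).add ((h1.pow 2).mul (h2.mul ((dec_e hr h).pow 2)))

/-- the explicit correction term -/
noncomputable def gw (r : ℕ) (m : ℕ → ℝ) : PowerSeries ℝ :=
  2 * (1 - X) ^ 3 * ge r m ^ 2
    + 4 * (C (b r 1) * C (r : ℝ) - 1) * (1 - X) ^ 2 * ge r m
    + (4 * C (b r 1) ^ 2 + (-5 * C (b r 1) ^ 2
        + 2 * C (b r 1) * (2 * C (b r 1) * C (r : ℝ) - 1) - 2 * C (b r 1)))
    + (2 * (C (b r 1) * C (r : ℝ) - 1) ^ 2 - 2 * C (b r 1) ^ 2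
        + ((C (b r 1) - (2 * C (b r 1) * C (r : ℝ) - 1)) ^ 2 + 3 * C (b r 1) ^ 2
          - 2 * C (b r 1) * (2 * C (b r 1) * C (r : ℝ) - 1) + 2 * C (b r 1))) * (1 - X)
    - (C (b r 1) - (2 * C (b r 1) * C (r : ℝ) - 1)) ^ 2 * (1 - X) ^ 2
    + (3 + 2 * C (b r 1) - 4 * C (b r 1) * C (r : ℝ)) * gF r m

/-- the explicit source term -/
noncomputable def gg (r : ℕ) (m : ℕ → ℝ) : PowerSeries ℝ :=
  X ^ (r - 1) * gF r m * S r - X ^ (2 * r - 3) * gF r m ^ 2 * Sg r

lemma ode_w (hr : 2 ≤ r) (h : MeanRec r m) (hQ : SecRec r m Q) :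
    derivative ℝ (gw r m) = -2 * S r * gw r m + (gh r m Q - 4 * gg r m) := by
  obtain ⟨q, rfl⟩ : ∃ q, r = q + 2 := ⟨r - 2, by omega⟩
  have hr0 : 0 < q + 2 := by omega
  have hX : (1 - X : PowerSeries ℝ) ≠ 0 := by
    intro h0
    have := congrArg (constantCoeff (R := ℝ)) h0
    simp at this
  apply mul_left_cancel₀ (pow_ne_zero 2 hX)
  set a : PowerSeries ℝ := C (b (q + 2) 1) with ha
  set ρ : PowerSeries ℝ := C ((q + 2 : ℕ) : ℝ) with hρ
  set e := ge (q + 2) m with he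
  set F := gF (q + 2) m with hF
  set z : PowerSeries ℝ := X ^ q with hz
  have hz1 : (X : PowerSeries ℝ) ^ (q + 2 - 1) = z * X := by
    rw [hz, ← pow_succ]
    congr 1
  have hz2 : (X : PowerSeries ℝ) ^ (2 * (q + 2) - 3) = z ^ 2 * X := by
    rw [hz, ← pow_mul, ← pow_succ]
    congr 1
    omega
  have hz3 : (X : PowerSeries ℝ) ^ (q + 2) = z * X ^ 2 := by
    rw [hz, ← pow_add]
  have hda : derivative ℝ a = 0 := by rw [ha]; exact derivative_C
  have hdρ : derivative ℝ ρ = 0 := by rw [hρ]; exact derivative_C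
  have hdX : derivative ℝ (X : PowerSeries ℝ) = 1 := derivative_X
  have hR1 : (1 - X) ^ 2 * e = z * X * F - (a * X + (a * ρ - 1) * (1 - X)) := by
    have := sq_mul_e hr0 h
    rw [hz1] at this
    exact this
  have hdF : derivative ℝ F = -2 * S (q + 2) * F + 1 := gF_ode hr0 h
  have hS : S (q + 2) * (1 - X) = 1 - z * X := by
    have := S_mul (q + 2)
    rwa [hz1] at this
  have hSg : (1 - X) * Sg (q + 2) = ρ - 1 - X * S (q + 2) := Sg_mul (q + 2) (by omega)
  have hQl : (1 - X) ^ 3 * gLow (q + 2) Q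
      = ((a * ρ - 1) ^ 2 * (1 - X) ^ 2
          + X * (2 * a ^ 2 + (2 * a * (a * ρ - 1) - a ^ 2) * (1 - X)))
        - z * X ^ 2 * ((a * ρ + (a * ρ - 1)) ^ 2 * (1 - X) ^ 2
          + X * (2 * a ^ 2 + (2 * a * (a * ρ + (a * ρ - 1)) - a ^ 2) * (1 - X))) := by
    have := gLow_sq (q + 2) (b (q + 2) 1) (b (q + 2) 1 * ((q + 2 : ℕ) : ℝ) - 1)
    rw [← gLow_Q hQ, hz3] at this
    have e1 : C (b (q + 2) 1 * ((q + 2 : ℕ) : ℝ) - 1) = a * ρ - 1 := by
      rw [map_sub, map_mul, map_one]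
    rw [e1] at this
    exact this
  -- derivative of `z * X`
  have hdz : derivative ℝ (z * X) = (ρ - 1) * z := by
    rw [hz, ← pow_succ, Derivation.leibniz_pow, hdX]
    simp only [smul_eq_mul, nsmul_eq_mul, mul_one, Nat.add_sub_cancel]
    congr 1
    rw [hρ]
    push_cast
    simp only [map_add, map_natCast, map_ofNat]
    ring
  have hdu : derivative ℝ (1 - X : PowerSeries ℝ) = -1 := by
    rw [map_sub, hdX, Derivation.map_one_eq_zero, zero_sub]
  -- derivative of the relation for `e`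
  have hR2 : (1 - X) ^ 2 * derivative ℝ e - 2 * (1 - X) * e
      = (ρ - 1) * z * F + z * X * (-2 * S (q + 2) * F + 1) - (a - (a * ρ - 1)) := by
    have h1 := congrArg (derivative ℝ) hR1
    have h2 := hdz
    rw [Derivation.leibniz, hdX] at h2
    simp only [map_sub, map_add, Derivation.leibniz, Derivation.leibniz_pow, hdF, hda, hdX, hdρ,
      Derivation.map_one_eq_zero, smul_eq_mul, nsmul_eq_mul] at h1 h2
    push_cast at h1
    linear_combination h1 + F * h2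
  have hdw : derivative ℝ (gw (q + 2) m)
      = 2 * (1 - X) ^ 3 * (2 * e * derivative ℝ e) - 6 * (1 - X) ^ 2 * e ^ 2
        + 4 * (a * ρ - 1) * (1 - X) ^ 2 * derivative ℝ e - 8 * (a * ρ - 1) * (1 - X) * e
        - (2 * (a * ρ - 1) ^ 2 - 2 * a ^ 2
          + ((a - (2 * a * ρ - 1)) ^ 2 + 3 * a ^ 2 - 2 * a * (2 * a * ρ - 1) + 2 * a))
        + 2 * (a - (2 * a * ρ - 1)) ^ 2 * (1 - X)
        + (3 + 2 * a - 4 * a * ρ) * (-2 * S (q + 2) * F + 1) := by
    have h2 : derivative ℝ (2 : PowerSeries ℝ) = 0 := by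
      have := Derivation.map_natCast (derivative ℝ) 2
      simpa using this
    have h3 : derivative ℝ (3 : PowerSeries ℝ) = 0 := by
      have := Derivation.map_natCast (derivative ℝ) 3
      simpa using this
    have h4 : derivative ℝ (4 : PowerSeries ℝ) = 0 := by
      have := Derivation.map_natCast (derivative ℝ) 4
      simpa using this
    have h5 : derivative ℝ (5 : PowerSeries ℝ) = 0 := by
      have := Derivation.map_natCast (derivative ℝ) 5
      simpa using this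
    unfold gw
    rw [← ha, ← hρ, ← he, ← hF]
    simp only [map_sub, map_add, Derivation.leibniz, Derivation.leibniz_pow, h2, h3, h4, h5, hda,
      hdρ, hdX, hdF, Derivation.map_one_eq_zero, map_neg, smul_eq_mul, nsmul_eq_mul]
    push_cast
    ring
  rw [hdw]
  unfold gh gg gw
  rw [← ha, ← hρ, ← he, ← hF, hz1, hz2]
  linear_combination
    (4 * ((1 - X) * ((ρ - 1) * z * F + z * X - (a - (a * ρ - 1))) - 2 * z * X * F * (1 - z * X))
      + 4 * (1 - z * X) * ((1 - X) ^ 2 * e + (z * X * F - (a * X + (a * ρ - 1) * (1 - X))))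
      + 8 * (a * ρ - 1) * (1 - z * X) * (1 - X)) * hR1
    + (4 * (1 - X) ^ 3 * e + 4 * (a * ρ - 1) * (1 - X) ^ 2) * hR2
    + (-8 * z * X * F * ((1 - X) ^ 2 * e) - 8 * (a * ρ - 1) * (1 - X) * z * X * F
      + 4 * ((1 - X) ^ 2 * e) ^ 2 + 8 * (a * ρ - 1) * (1 - X) * ((1 - X) ^ 2 * e)
      + 2 * (1 - X) * ((4 * a ^ 2 + (-5 * a ^ 2 + 2 * a * (2 * a * ρ - 1) - 2 * a))
        + (2 * (a * ρ - 1) ^ 2 - 2 * a ^ 2
          + ((a - (2 * a * ρ - 1)) ^ 2 + 3 * a ^ 2 - 2 * a * (2 * a * ρ - 1) + 2 * a)) * (1 - X)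
        - (a - (2 * a * ρ - 1)) ^ 2 * (1 - X) ^ 2)
      + 4 * z * X * F * (1 - X) + 4 * z ^ 2 * X ^ 2 * F ^ 2) * hS
    - 2 * hQl - 4 * z ^ 2 * X * F ^ 2 * (1 - X) * hSg

lemma dec_w (hr : 0 < r) (h : MeanRec r m) : Dec (gw r m) := by
  have h2 : ∀ n : ℕ, Dec ((n : PowerSeries ℝ)) := by
    intro n
    have := dec_C (n : ℝ)
    rwa [map_natCast] at this
  have d2 : Dec (2 : PowerSeries ℝ) := by simpa using h2 2
  have d3 : Dec (3 : PowerSeries ℝ) := by simpa using h2 3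
  have d4 : Dec (4 : PowerSeries ℝ) := by simpa using h2 4
  have d5 : Dec (5 : PowerSeries ℝ) := by simpa using h2 5
  have hu : Dec (1 - X : PowerSeries ℝ) := dec_one.sub dec_X
  have ha := dec_C (b r 1)
  have hρ := dec_C (r : ℝ)
  have he : Dec (ge r m) := dec_e hr h
  have hF := dec_gF hr h
  have hb : Dec (C (b r 1) * C (r : ℝ) - 1) := (ha.mul hρ).sub dec_one
  have hg : Dec (2 * C (b r 1) * C (r : ℝ) - 1) := ((d2.mul ha).mul hρ).sub dec_one
  unfold gw
  refine ((((?_ : Dec _).add ?_).add ?_).add ?_).sub ?_ |>.add ?_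
  · exact (d2.mul (hu.pow 3)).mul (he.pow 2)
  · exact ((d4.mul hb).mul (hu.pow 2)).mul he
  · exact (d4.mul (ha.pow 2)).add
      (((d5.neg.mul (ha.pow 2)).add ((d2.mul ha).mul hg)).sub (d2.mul ha))
  · exact (((d2.mul (hb.pow 2)).sub (d2.mul (ha.pow 2))).add
      (((((ha.sub hg).pow 2).add (d3.mul (ha.pow 2))).sub ((d2.mul ha).mul hg)).add
        (d2.mul ha))).mul hu
  · exact ((ha.sub hg).pow 2).mul (hu.pow 2)
  · exact ((d3.add (d2.mul ha)).sub ((d4.mul ha).mul hρ)).mul hF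

lemma ev_two (t : ℝ) : ev 2 t = 2 := by
  have := ev_C 2 t
  rwa [map_ofNat] at this

lemma ev_four (t : ℝ) : ev 4 t = 4 := by
  have := ev_C 4 t
  rwa [map_ofNat] at this

lemma dec_two : Dec (2 : PowerSeries ℝ) := by
  have := dec_C 2
  rwa [map_ofNat] at this

lemma dec_four : Dec (4 : PowerSeries ℝ) := by
  have := dec_C 4
  rwa [map_ofNat] at this

lemma ev_one_sub (t : ℝ) : ev (1 - X) t = 1 - t := by
  rw [ev_sub dec_one dec_X, ev_one, ev_X]

lemma ev_w_one (hr : 0 < r) (h : MeanRec r m) : ev (gw r m) 1 = b r 1 ^ 2 - b r 1 := by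
  have hF := dec_gF hr h
  have hu : Dec (1 - X : PowerSeries ℝ) := dec_one.sub dec_X
  have ha := dec_C (b r 1)
  have hρ := dec_C (r : ℝ)
  have he : Dec (ge r m) := dec_e hr h
  set a := b r 1 with haa
  -- write `w = (1 - X) * w₁ + C c₀ + C c₁ * F`
  set c₀ : ℝ := 4 * a ^ 2 + (-5 * a ^ 2 + 2 * a * (2 * a * r - 1) - 2 * a) with hc₀
  set c₁ : ℝ := 3 + 2 * a - 4 * a * r with hc₁
  set c₂ : ℝ := 2 * (a * r - 1) ^ 2 - 2 * a ^ 2
        + ((a - (2 * a * r - 1)) ^ 2 + 3 * a ^ 2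
          - 2 * a * (2 * a * r - 1) + 2 * a) with hc₂
  set c₃ : ℝ := (a - (2 * a * r - 1)) ^ 2 with hc₃
  set c₄ : ℝ := 4 * (a * r - 1) with hc₄
  have hw : gw r m = (1 - X) * (C 2 * (1 - X) ^ 2 * ge r m ^ 2 + C c₄ * (1 - X) * ge r m
      + C c₂ - C c₃ * (1 - X)) + C c₀ + C c₁ * gF r m := by
    rw [hc₀, hc₁, hc₂, hc₃, hc₄]
    simp only [map_add, map_sub, map_mul, map_pow, map_neg, map_one, map_ofNat]
    unfold gw
    ring
  have d2 := dec_C 2
  have hd1 : Dec (C 2 * (1 - X) ^ 2 * ge r m ^ 2 + C c₄ * (1 - X) * ge r m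
      + C c₂ - C c₃ * (1 - X)) :=
    (((((d2.mul (hu.pow 2)).mul (he.pow 2))).add (((dec_C c₄).mul hu).mul he)).add
      (dec_C c₂)).sub ((dec_C c₃).mul hu)
  rw [hw, ev_add ((hu.mul hd1).add (dec_C c₀)) ((dec_C c₁).mul hF),
    ev_add (hu.mul hd1) (dec_C c₀), ev_mul hu hd1, ev_mul (dec_C c₁) hF, ev_one_sub, ev_C, ev_C,
    ev_gF_one hr h, hc₀, hc₁]
  ring

lemma w_zero (hr : 0 < r) (h : MeanRec r m) : constantCoeff (gw r m) = 0 := by
  have hm0 : m 0 = 0 := h.low 0 hr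
  unfold gw
  simp only [map_add, map_sub, map_mul, map_pow, map_neg, map_one, map_ofNat, constantCoeff_C,
    constantCoeff_X, gF_zero]
  have : constantCoeff (ge r m) = - (b r 1 * r - 1) := by
    simp [ge, aff, hm0]
  rw [this]
  ring

lemma Z_ode (hr : 2 ≤ r) (h : MeanRec r m) (hQ : SecRec r m Q) :
    derivative ℝ ((1 - X) ^ 2 * gW r Q - gw r m)
      = -2 * S r * ((1 - X) ^ 2 * gW r Q - gw r m) + 4 * gg r m := by
  rw [map_sub, ode_Q (by omega) hQ, ode_w hr h hQ]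
  ring

lemma dec_gg (hr : 0 < r) (h : MeanRec r m) : Dec (gg r m) :=
  (((dec_X.pow _).mul (dec_gF hr h)).mul (dec_S r)).sub
    (((dec_X.pow _).mul ((dec_gF hr h).pow 2)).mul (dec_Sg r))

lemma ev_gg (hr : 0 < r) (h : MeanRec r m) (t : ℝ) :
    ev (gg r m) t = t ^ (r - 1) * (b r t / B r t) * (∑ j ∈ range (r - 1), t ^ j)
      - t ^ (2 * r - 3) * (b r t / B r t) ^ 2
        * (∑ j ∈ range (r - 1), ((r : ℝ) - 1 - j) * t ^ j) := by
  have hF := dec_gF hr h
  unfold gg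
  rw [ev_sub (((dec_X.pow _).mul hF).mul (dec_S r)) (((dec_X.pow _).mul (hF.pow 2)).mul (dec_Sg r)),
    ev_mul ((dec_X.pow _).mul hF) (dec_S r), ev_mul (dec_X.pow _) hF,
    ev_mul ((dec_X.pow _).mul (hF.pow 2)) (dec_Sg r), ev_mul (dec_X.pow _) (hF.pow 2),
    ev_pow dec_X, ev_pow dec_X, ev_pow hF, ev_X, ev_gF hr h, ev_S, ev_Sg]

/-- the value of the limiting variance -/
lemma ev_L_one (hr : 2 ≤ r) (h : MeanRec r m) (hQ : SecRec r m Q) :
    ev ((1 - X) ^ 2 * gW r Q) 1 = v r := by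
  have hr0 : 0 < r := by omega
  have hL : Dec ((1 - X) ^ 2 * gW r Q) := dec_of_ode (dec_gh hr0 h) (ode_Q hr0 hQ)
  have hw := dec_w hr0 h
  have h0 : constantCoeff ((1 - X) ^ 2 * gW r Q - gw r m) = 0 := by
    rw [map_sub, w_zero hr0 h, sub_zero]
    simp [gW]
  have hgg := dec_gg hr0 h
  have h1 := ev_of_ode (dec_four.mul hgg) (Z_ode hr h hQ) h0 1
  rw [ev_sub hL hw, ev_w_one hr0 h] at h1
  have h2 : ev ((1 - X) ^ 2 * gW r Q) 1 = b r 1 ^ 2 - b r 1
      + ∫ s in (0 : ℝ)..1, Real.exp (P r s - P r 1) * ev (4 * gg r m) s := by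
    linarith
  rw [h2, v, ← intervalIntegral.integral_const_mul]
  congr 1
  apply intervalIntegral.integral_congr
  intro s _
  have hB := (B_pos r s).ne'
  simp only
  rw [exp_P, ev_mul dec_four hgg, ev_four, ev_gg hr0 h]
  field_simp

lemma ev_gh_one (hr : 0 < r) (h : MeanRec r m) : ev (gh r m Q) 1 = 0 := by
  have he : Dec (ge r m) := dec_e hr h
  have hu : Dec (1 - X : PowerSeries ℝ) := dec_one.sub dec_X
  have hw : gh r m Q = (1 - X) * (2 * gLow r Q + (1 - X) * (2 * ge r m ^ 2)) := by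
    unfold gh
    ring
  rw [hw, ev_mul hu ((dec_two.mul (dec_gLow r Q)).add (hu.mul (dec_two.mul (he.pow 2)))),
    ev_one_sub]
  ring

/-- centred second moments are affine up to a super-geometrically small error -/
lemma dec_Q (hr : 2 ≤ r) (h : MeanRec r m) (hQ : SecRec r m Q) :
    Dec (PowerSeries.mk fun n => Q n - ((n : ℝ) + r) * v r) := by
  have hr0 : 0 < r := by omega
  have hL : Dec ((1 - X) ^ 2 * gW r Q) := dec_of_ode (dec_gh hr0 h) (ode_Q hr0 hQ)
  rw [mk_eq _ hr0]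
  refine (dec_gLow _ _).add ((dec_X.pow _).mul ?_)
  have h1 := asym hL (W := gW r Q) rfl
  have hd : ev (derivative ℝ ((1 - X) ^ 2 * gW r Q)) 1 = - (2 * ((r : ℝ) - 1) * v r) := by
    have e : (-2 : PowerSeries ℝ) * S r * ((1 - X) ^ 2 * gW r Q)
        = C (-2 : ℝ) * S r * ((1 - X) ^ 2 * gW r Q) := by
      rw [map_neg, map_ofNat]
    rw [ode_Q hr0 hQ, e, ev_add (((dec_C (-2)).mul (dec_S r)).mul hL) (dec_gh hr0 h),
        ev_mul ((dec_C (-2)).mul (dec_S r)) hL, ev_mul (dec_C (-2)) (dec_S r), ev_C,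
        ev_S_one hr0, ev_L_one hr h hQ, ev_gh_one hr0 h]
    ring
  rw [ev_L_one hr h hQ, hd] at h1
  have h2 : gW r (fun n => Q n - ((n : ℝ) + r) * v r)
      = (PowerSeries.mk fun k => coeff k (gW r Q)
      - (((k : ℝ) + 1) * v r - -(2 * ((r : ℝ) - 1) * v r)))
        - C (- (v r - -(2 * ((r : ℝ) - 1) * v r))) := by
    ext k
    rcases k with _ | k
    · simp [gW]
    · rw [map_sub, coeff_mk, coeff_C, if_neg (by omega)]
      simp only [gW, coeff_mk, if_neg (Nat.succ_ne_zero k), sub_zero]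
      have : ((k + 1 + r - 1 : ℕ) : ℝ) = k + r := by
        have : k + 1 + r - 1 = k + r := by omega
        rw [this]
        push_cast
        ring
      rw [this]
      push_cast
      ring
  rw [h2]
  exact h1.sub (dec_C _)

/-- the variances -/
lemma dec_var (hr : 2 ≤ r) (h : MeanRec r m) (hQ : SecRec r m Q) :
    Dec (PowerSeries.mk fun n => (Q n - (m n - aff r n) ^ 2) - ((n : ℝ) + r) * v r) := by
  have hr0 : 0 < r := by omega
  have h1 := dec_Q hr h hQ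
  have h2 := dec_e hr0 h
  have h3 : Dec (PowerSeries.mk fun n => (m n - aff r n) ^ 2) := by
    intro δ hδ
    obtain ⟨C, hC0, hC⟩ := h2 (Real.sqrt δ) (Real.sqrt_pos.2 hδ)
    refine ⟨C ^ 2, by positivity, fun n => ?_⟩
    have := hC n
    simp only [coeff_mk] at this ⊢
    rw [abs_pow]
    calc |m n - aff r n| ^ 2 ≤ (C * Real.sqrt δ ^ n) ^ 2 := by gcongr
      _ = C ^ 2 * (Real.sqrt δ ^ 2) ^ n := by ring
      _ = _ := by rw [Real.sq_sqrt hδ.le]
  have : (PowerSeries.mk fun n => (Q n - (m n - aff r n) ^ 2) - ((n : ℝ) + r) * v r)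
      = (PowerSeries.mk fun n => Q n - ((n : ℝ) + r) * v r)
        - PowerSeries.mk fun n => (m n - aff r n) ^ 2 := by
    ext n
    simp only [map_sub, coeff_mk]
    ring
  rw [this]
  exact h1.sub h3

end second

end Pool.Agent.J4.H88.RSA
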