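import Pool.Agent.J4.H88.RSA.Defs

namespace Pool.Agent.J4.H88.RSA

open Finset MeasureTheory ProbabilityTheory

/-- elements of `F` compatible with `s` -/
def nb (r : ℕ) (F : Finset ℕ) (s : ℕ) : Finset ℕ := F.filter fun t => t + r ≤ s ∨ s + r ≤ t

lemma nb_card_lt {r : ℕ} (hr : 0 < r) {F : Finset ℕ} {s : ℕ} (hs : s ∈ F) :
    (nb r F s).card < F.card := by
  apply Finset.card_lt_card
  refine ⟨Finset.filter_subset _ _, fun h => ?_⟩
  have := h hs
  simp only [nb, Finset.mem_filter] at this
  omega

/-- fuelled version of the functional -/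
noncomputable def Dk (r : ℕ) : ℕ → Finset ℕ → (ℕ → ℝ) → ℝ
  | 0, _, ψ => ψ 0
  | k + 1, F, ψ =>
    if F = ∅ then ψ 0 else (∑ s ∈ F, Dk r k (nb r F s) (fun x => ψ (x + 1))) / (F.card : ℝ)

/-- expectation of `ψ (final number of placements)`, starting with the set `F` of free blocks -/
noncomputable def D (r : ℕ) (F : Finset ℕ) (ψ : ℕ → ℝ) : ℝ := Dk r F.card F ψ

lemma Dk_empty (r k : ℕ) (ψ : ℕ → ℝ) : Dk r k ∅ ψ = ψ 0 := by
  cases k <;> simp [Dk]

lemma Dk_fuel {r : ℕ} (hr : 0 < r) (k : ℕ) : ∀ (F : Finset ℕ) (ψ : ℕ → ℝ), F.card ≤ k →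
    Dk r k F ψ = D r F ψ := by
  induction k using Nat.strong_induction_on with
  | _ k ih =>
    intro F ψ hF
    rcases F.eq_empty_or_nonempty with rfl | hne
    · simp [Dk_empty, D]
    have hc : 0 < F.card := hne.card_pos
    obtain ⟨k, rfl⟩ : ∃ j, k = j + 1 := ⟨k - 1, by omega⟩
    obtain ⟨c, hc'⟩ : ∃ j, F.card = j + 1 := ⟨F.card - 1, by omega⟩
    rw [D, hc']
    simp only [Dk, hne.ne_empty, if_false]
    congr 1
    apply Finset.sum_congr rfl
    intro s hs
    have h1 := nb_card_lt hr hs
    rw [ih k (by omega) _ _ (by omega)]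
    rcases Nat.lt_or_ge c (k + 1) with h | h
    · rw [ih c h _ _ (by omega)]
    · omega

lemma D_empty (r : ℕ) (ψ : ℕ → ℝ) : D r ∅ ψ = ψ 0 := by simp [D, Dk_empty]

lemma D_eq {r : ℕ} (hr : 0 < r) {F : Finset ℕ} (hF : F.Nonempty) (ψ : ℕ → ℝ) :
    D r F ψ = (∑ s ∈ F, D r (nb r F s) (fun x => ψ (x + 1))) / (F.card : ℝ) := by
  rw [← Dk_fuel hr (F.card + 1) F ψ (by omega)]
  simp only [Dk, hF.ne_empty, if_false]
  congr 1
  apply Finset.sum_congr rfl
  intro s hs
  rw [Dk_fuel hr]
  exact (nb_card_lt hr hs).le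

lemma D_mul {r : ℕ} (hr : 0 < r) {F : Finset ℕ} (ψ : ℕ → ℝ) :
    (F.card : ℝ) * D r F ψ = ∑ s ∈ F, D r (nb r F s) (fun x => ψ (x + 1)) := by
  rcases F.eq_empty_or_nonempty with rfl | hne
  · simp
  rw [D_eq hr hne]
  have : (F.card : ℝ) ≠ 0 := by simp [hne.ne_empty]
  field_simp

lemma D_add {r : ℕ} (hr : 0 < r) (k : ℕ) : ∀ (F : Finset ℕ) (ψ φ : ℕ → ℝ), F.card ≤ k →
    D r F (fun x => ψ x + φ x) = D r F ψ + D r F φ := by
  induction k with
  | zero =>
    intro F ψ φ hF
    obtain rfl : F = ∅ := by simpa using hF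
    simp [D_empty]
  | succ k ih =>
    intro F ψ φ hF
    rcases F.eq_empty_or_nonempty with rfl | hne
    · simp [D_empty]
    rw [D_eq hr hne, D_eq hr hne, D_eq hr hne, ← add_div, ← Finset.sum_add_distrib]
    congr 1
    apply Finset.sum_congr rfl
    intro s hs
    have h1 := nb_card_lt hr hs
    exact ih _ (fun x => ψ (x + 1)) (fun x => φ (x + 1)) (by omega)

lemma D_smul {r : ℕ} (hr : 0 < r) (c : ℝ) (k : ℕ) : ∀ (F : Finset ℕ) (ψ : ℕ → ℝ), F.card ≤ k →
    D r F (fun x => c * ψ x) = c * D r F ψ := by
  induction k with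
  | zero =>
    intro F ψ hF
    obtain rfl : F = ∅ := by simpa using hF
    simp [D_empty]
  | succ k ih =>
    intro F ψ hF
    rcases F.eq_empty_or_nonempty with rfl | hne
    · simp [D_empty]
    rw [D_eq hr hne, D_eq hr hne, ← mul_div_assoc, Finset.mul_sum]
    congr 1
    apply Finset.sum_congr rfl
    intro s hs
    have h1 := nb_card_lt hr hs
    exact ih _ (fun x => ψ (x + 1)) (by omega)

lemma D_const {r : ℕ} (hr : 0 < r) (c : ℝ) (k : ℕ) : ∀ (F : Finset ℕ), F.card ≤ k →
    D r F (fun _ => c) = c := by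
  induction k with
  | zero =>
    intro F hF
    obtain rfl : F = ∅ := by simpa using hF
    simp [D_empty]
  | succ k ih =>
    intro F hF
    rcases F.eq_empty_or_nonempty with rfl | hne
    · simp [D_empty]
    rw [D_eq hr hne]
    have : (F.card : ℝ) ≠ 0 := by simp [hne.ne_empty]
    rw [Finset.sum_congr rfl (g := fun _ => c)]
    · simp; field_simp
    · intro s hs
      have h1 := nb_card_lt hr hs
      exact ih _ (by omega)

lemma D_sum {r : ℕ} (hr : 0 < r) (F : Finset ℕ) {ι : Type*} (I : Finset ι) (ψ : ι → ℕ → ℝ) :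
    D r F (fun x => ∑ i ∈ I, ψ i x) = ∑ i ∈ I, D r F (ψ i) := by
  classical
  induction I using Finset.induction_on with
  | empty => simp [D_const hr 0 F.card F le_rfl]
  | insert i I hi ih =>
    simp only [Finset.sum_insert hi]
    rw [D_add hr F.card F _ _ le_rfl, ih]

/-- convolution -/
lemma D_union {r : ℕ} (hr : 0 < r) (k : ℕ) : ∀ (F G : Finset ℕ) (ψ : ℕ → ℝ),
    F.card + G.card ≤ k → (∀ s ∈ F, ∀ t ∈ G, s + r ≤ t) →
    D r (F ∪ G) ψ = D r F (fun x => D r G (fun y => ψ (x + y))) := by
  induction k with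
  | zero =>
    intro F G ψ hk _
    obtain rfl : F = ∅ := by
      rw [← Finset.card_eq_zero]; omega
    obtain rfl : G = ∅ := by
      rw [← Finset.card_eq_zero]; omega
    simp [D_empty]
  | succ k ih =>
    intro F G ψ hk hFG
    rcases F.eq_empty_or_nonempty with rfl | hF
    · simp [D_empty]
    rcases G.eq_empty_or_nonempty with rfl | hG
    · simp [D_empty]
    have hdisj : Disjoint F G := by
      rw [Finset.disjoint_left]
      intro a ha hb
      have := hFG a ha a hb
      omega
    have hU : (F ∪ G).Nonempty := hF.mono Finset.subset_union_left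
    rw [D_eq hr hU, Finset.sum_union hdisj, Finset.card_union_of_disjoint hdisj]
    have h1 : ∀ s ∈ F, nb r (F ∪ G) s = nb r F s ∪ G := by
      intro s hs
      ext t
      simp only [nb, Finset.mem_filter, Finset.mem_union]
      constructor
      · rintro ⟨h | h, h'⟩
        · exact Or.inl ⟨h, h'⟩
        · exact Or.inr h
      · rintro (⟨h, h'⟩ | h)
        · exact ⟨Or.inl h, h'⟩
        · exact ⟨Or.inr h, Or.inr (hFG s hs t h)⟩
    have h2 : ∀ s ∈ G, nb r (F ∪ G) s = F ∪ nb r G s := by
      intro s hs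
      ext t
      simp only [nb, Finset.mem_filter, Finset.mem_union]
      constructor
      · rintro ⟨h | h, h'⟩
        · exact Or.inl h
        · exact Or.inr ⟨h, h'⟩
      · rintro (h | ⟨h, h'⟩)
        · exact ⟨Or.inl h, Or.inl (hFG t h s hs)⟩
        · exact ⟨Or.inr h, h'⟩
    have e1 : ∑ s ∈ F, D r (nb r (F ∪ G) s) (fun x => ψ (x + 1))
        = (F.card : ℝ) * D r F (fun x => D r G (fun y => ψ (x + y))) := by
      rw [D_mul hr]
      apply Finset.sum_congr rfl
      intro s hs
      rw [h1 s hs, ih _ _ _ (by have := nb_card_lt hr hs; omega)]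
      · congr 1
        funext x
        congr 1
        funext y
        congr 1
        omega
      · intro a ha b hb
        exact hFG a (Finset.filter_subset _ _ ha) b hb
    have e2 : ∑ s ∈ G, D r (nb r (F ∪ G) s) (fun x => ψ (x + 1))
        = (G.card : ℝ) * D r F (fun x => D r G (fun y => ψ (x + y))) := by
      rw [← D_smul hr _ F.card F _ le_rfl]
      have : (fun x => (G.card : ℝ) * D r G (fun y => ψ (x + y)))
          = fun x => ∑ s ∈ G, D r (nb r G s) (fun y => ψ (x + (y + 1))) := by
        funext x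
        rw [D_mul hr]
      rw [this, D_sum hr]
      apply Finset.sum_congr rfl
      intro s hs
      rw [h2 s hs, ih _ _ _ (by have := nb_card_lt hr hs; omega)]
      · rfl
      · intro a ha b hb
        exact hFG a ha b (Finset.filter_subset _ _ hb)
    rw [e1, e2, ← add_mul]
    have : ((F.card + G.card : ℕ) : ℝ) ≠ 0 := by
      have := hF.card_pos
      positivity
    push_cast at this ⊢
    field_simp

/-- shift invariance -/
lemma D_shift {r : ℕ} (hr : 0 < r) (c k : ℕ) : ∀ (F : Finset ℕ) (ψ : ℕ → ℝ), F.card ≤ k →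
    D r (F.map (addRightEmbedding c)) ψ = D r F ψ := by
  induction k with
  | zero =>
    intro F ψ hF
    obtain rfl : F = ∅ := by simpa using hF
    simp [D_empty]
  | succ k ih =>
    intro F ψ hF
    rcases F.eq_empty_or_nonempty with rfl | hne
    · simp
    rw [D_eq hr hne, D_eq hr (hne.map), Finset.sum_map, Finset.card_map]
    congr 1
    apply Finset.sum_congr rfl
    intro s hs
    have h1 := nb_card_lt hr hs
    have : nb r (F.map (addRightEmbedding c)) (addRightEmbedding c s)
        = (nb r F s).map (addRightEmbedding c) := by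
      ext t
      simp only [nb, Finset.mem_filter, Finset.mem_map, addRightEmbedding_apply]
      constructor
      · rintro ⟨⟨a, ha, rfl⟩, h⟩
        exact ⟨a, ⟨ha, by omega⟩, rfl⟩
      · rintro ⟨a, ⟨ha, h⟩, rfl⟩
        exact ⟨⟨a, ha, rfl⟩, by omega⟩
    rw [this]
    exact ih _ _ (by omega)

/-- recursion on intervals -/
lemma D_interval {r : ℕ} (hr : 0 < r) (k : ℕ) (ψ : ℕ → ℝ) :
    ((k : ℝ) + 1) * D r (range (k + r + 1 - r)) ψ =
      ∑ i ∈ range (k + 1), D r (range (i + 1 - r))
        (fun x => D r (range (k - i + 1 - r)) (fun y => ψ (x + y + 1))) := by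
  have h0 : k + r + 1 - r = k + 1 := by omega
  rw [h0]
  have hc : ((k : ℝ) + 1) = ((range (k + 1)).card : ℝ) := by simp
  rw [hc, D_mul hr]
  apply Finset.sum_congr rfl
  intro i hi
  have hi' : i < k + 1 := by simpa using hi
  have : nb r (range (k + 1)) i
      = range (i + 1 - r) ∪ (range (k - i + 1 - r)).map (addRightEmbedding (i + r)) := by
    ext t
    simp only [nb, Finset.mem_filter, Finset.mem_union, Finset.mem_range, Finset.mem_map,
      addRightEmbedding_apply]
    constructor
    · rintro ⟨h1, h2 | h2⟩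
      · left; omega
      · right
        exact ⟨t - (i + r), by omega, by omega⟩
    · rintro (h | ⟨a, ha, rfl⟩)
      · omega
      · omega
  rw [this, D_union hr _ _ _ _ le_rfl]
  · congr 1
    funext x
    rw [D_shift hr _ _ _ _ le_rfl]
  · intro s hs t ht
    simp only [Finset.mem_range, Finset.mem_map, addRightEmbedding_apply] at hs ht
    obtain ⟨a, ha, rfl⟩ := ht
    omega

lemma D_interval_low {r n : ℕ} (hn : n < r) (ψ : ℕ → ℝ) :
    D r (range (n + 1 - r)) ψ = ψ 0 := by
  have : n + 1 - r = 0 := by omega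
  rw [this, Finset.range_zero, D_empty]

/-! ### the bridge with the process -/

/-- The law after `k` further placements, started from the set `S` of occupied blocks. -/
noncomputable def run (r n : ℕ) : ℕ → Finset ℕ → PMF (Finset ℕ)
  | 0, S => PMF.pure S
  | k + 1, S => (step r n S).bind (run r n k)

lemma run_succ' (r n k : ℕ) : ∀ S, run r n (k + 1) S = (run r n k S).bind (step r n) := by
  induction k with
  | zero => intro S; simp [run, PMF.bind_pure]
  | succ k ih =>
    intro S
    rw [run]
    conv_rhs => rw [run]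
    rw [PMF.bind_bind]
    congr 1
    funext T
    exact ih T

lemma config_eq_run (r n k : ℕ) : config r n k = run r n k ∅ := by
  induction k with
  | zero => rfl
  | succ k ih => rw [config, ih, run_succ']

lemma toMeasure_uniform_bind {F : Finset ℕ} (h : F.Nonempty) (q : ℕ → PMF ℕ) :
    ((PMF.uniformOfFinset F h).bind q).toMeasure
      = ∑ s ∈ F, (F.card : ENNReal)⁻¹ • (q s).toMeasure := by
  ext A hA
  rw [PMF.toMeasure_bind_apply _ _ _ hA, Measure.finsetSum_apply]
  rw [tsum_eq_sum (s := F)]
  · apply Finset.sum_congr rfl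
    intro s hs
    rw [PMF.uniformOfFinset_apply_of_mem h hs]
    simp
  · intro s hs
    rw [PMF.uniformOfFinset_apply_of_notMem h hs]
    simp

lemma disjoint_iff_cmp {r : ℕ} (hr : 0 < r) (s t : ℕ) :
    Disjoint (Ico s (s + r)) (Ico t (t + r)) ↔ s + r ≤ t ∨ t + r ≤ s := by
  rw [Finset.disjoint_left]
  constructor
  · intro h
    by_contra hc
    push Not at hc
    have := @h (max s t) (by simp only [Finset.mem_Ico]; omega)
    simp only [Finset.mem_Ico] at this
    omega
  · intro h a ha hb
    simp only [Finset.mem_Ico] at ha hb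
    omega

lemma mem_free {r : ℕ} (hr : 0 < r) {n : ℕ} {S : Finset ℕ} {s : ℕ} :
    s ∈ free r n S ↔ s + r ≤ n ∧ ∀ t ∈ S, s + r ≤ t ∨ t + r ≤ s := by
  simp only [free, Finset.mem_filter, Finset.mem_range, disjoint_iff_cmp hr]
  constructor
  · rintro ⟨_, h⟩; exact h
  · intro h; exact ⟨by omega, h⟩

lemma free_insert {r : ℕ} (hr : 0 < r) {n : ℕ} {S : Finset ℕ} {s : ℕ} :
    free r n (insert s S) = nb r (free r n S) s := by
  ext t
  simp only [nb, Finset.mem_filter, mem_free hr, Finset.mem_insert]
  constructor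
  · rintro ⟨h1, h2⟩
    exact ⟨⟨h1, fun u hu => h2 u (Or.inr hu)⟩, h2 s (Or.inl rfl)⟩
  · rintro ⟨⟨h1, h2⟩, h3⟩
    refine ⟨h1, ?_⟩
    rintro u (rfl | hu)
    · exact h3
    · exact h2 u hu

lemma notMem_of_free {r : ℕ} (hr : 0 < r) {n : ℕ} {S : Finset ℕ} {s : ℕ} (hs : s ∈ free r n S) :
    s ∉ S := by
  intro h
  have := ((mem_free hr).1 hs).2 s h
  omega

lemma run_jam {r n : ℕ} {S : Finset ℕ} (h : free r n S = ∅) (k : ℕ) :
    run r n k S = PMF.pure S := by
  induction k with
  | zero => rfl
  | succ k ih =>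
    rw [run, step]
    simp [h, ih]

lemma run_map_card_succ {r n : ℕ} {S : Finset ℕ} (h : (free r n S).Nonempty) (k : ℕ) :
    (run r n (k + 1) S).map Finset.card
      = (PMF.uniformOfFinset (free r n S) h).bind
          fun s => (run r n k (insert s S)).map Finset.card := by
  rw [run, step, dif_pos h, PMF.bind_map, PMF.map_bind]
  rfl

lemma integral_run {r : ℕ} (hr : 0 < r) (n : ℕ) (ψ : ℕ → ℝ) (k : ℕ) :
    ∀ S : Finset ℕ, (free r n S).card ≤ k →
      Integrable ψ ((run r n k S).map Finset.card).toMeasure ∧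
      ∫ x, ψ x ∂((run r n k S).map Finset.card).toMeasure
        = D r (free r n S) (fun x => ψ (S.card + x)) := by
  induction k with
  | zero =>
    intro S hS
    have h0 : free r n S = ∅ := by simpa using hS
    rw [h0, D_empty, run_jam h0, PMF.pure_map, PMF.toMeasure_pure]
    constructor
    · exact integrable_dirac (by simp)
    · simp
  | succ k ih =>
    intro S hS
    rcases (free r n S).eq_empty_or_nonempty with h0 | hne
    · rw [h0, D_empty, run_jam h0, PMF.pure_map, PMF.toMeasure_pure]
      constructor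
      · exact integrable_dirac (by simp)
      · simp
    have hlt : ∀ s ∈ free r n S, (free r n (insert s S)).card ≤ k := by
      intro s hs
      rw [free_insert hr]
      have := nb_card_lt hr hs
      omega
    have hfin : ((free r n S).card : ENNReal)⁻¹ ≠ ⊤ := by
      simp [hne.ne_empty]
    rw [run_map_card_succ hne, toMeasure_uniform_bind]
    constructor
    · rw [integrable_finsetSum_measure]
      intro s hs
      exact ((ih (insert s S) (hlt s hs)).1).smul_measure hfin
    · rw [integral_finsetSum_measure]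
      · rw [D_eq hr hne, div_eq_inv_mul, Finset.mul_sum]
        apply Finset.sum_congr rfl
        intro s hs
        rw [integral_smul_measure, (ih (insert s S) (hlt s hs)).2, free_insert hr,
          Finset.card_insert_of_notMem (notMem_of_free hr hs)]
        simp only [smul_eq_mul, ENNReal.toReal_inv, ENNReal.toReal_natCast]
        congr 2
        funext x
        congr 1
        omega
      · intro s hs
        exact ((ih (insert s S) (hlt s hs)).1).smul_measure hfin

lemma free_empty {r : ℕ} (hr : 0 < r) (n : ℕ) : free r n ∅ = range (n + 1 - r) := by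
  ext s
  rw [mem_free hr]
  simp only [Finset.notMem_empty, false_imp_iff, implies_true, and_true, Finset.mem_range]
  omega

lemma integral_count {r : ℕ} (hr : 0 < r) (n : ℕ) (ψ : ℕ → ℝ) :
    Integrable ψ (count r n).toMeasure ∧
      ∫ x, ψ x ∂(count r n).toMeasure = D r (range (n + 1 - r)) ψ := by
  have := integral_run hr n ψ n ∅ (by rw [free_empty hr, Finset.card_range]; omega)
  rw [← config_eq_run, free_empty hr] at this
  simpa [count] using this

/-- after `n` placements the configuration is jammed -/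
lemma run_support {r : ℕ} (hr : 0 < r) (n k : ℕ) : ∀ S T : Finset ℕ, (free r n S).card ≤ k →
    T ∈ (run r n k S).support → free r n T = ∅ := by
  induction k with
  | zero =>
    intro S T hS hT
    have h0 : free r n S = ∅ := by simpa using hS
    have : T = S := by simpa [run] using hT
    rw [this, h0]
  | succ k ih =>
    intro S T hS hT
    rcases (free r n S).eq_empty_or_nonempty with h0 | hne
    · rw [run_jam h0] at hT
      have : T = S := by simpa using hT
      rw [this, h0]
    · rw [run, step, dif_pos hne, PMF.mem_support_bind_iff] at hT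
      obtain ⟨U, hU, hT⟩ := hT
      rw [PMF.mem_support_map_iff] at hU
      obtain ⟨s, hs, rfl⟩ := hU
      have hs' : s ∈ free r n S := by simpa using hs
      refine ih _ _ ?_ hT
      rw [free_insert hr]
      have := nb_card_lt hr hs'
      omega

lemma config_support {r : ℕ} (hr : 0 < r) (n : ℕ) (T : Finset ℕ)
    (hT : T ∈ (config r n n).support) : free r n T = ∅ := by
  rw [config_eq_run] at hT
  exact run_support hr n n ∅ T (by rw [free_empty hr, Finset.card_range]; omega) hT

end Pool.Agent.J4.H88.RSA
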